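import Pool.Agent.H28.PM.Def
import Pool.Agent.H28.PM.Final

set_option autoImplicit false

/-! Question Q1, negative answer: the Moebius function of the permutation poset is not bounded by a
function of the number of occurrences. -/

namespace Pool.Agent.Results.MP_d308b2_co.NoBound

open Pool.Agent.H28.PM

/-- For every `m ≥ 1` there are permutations `σ, τ` such that `τ` contains exactly one occurrence of
`σ` and `μ(σ, τ) = 2 ^ m`. Hence there is no function `f : ℕ → ℕ` with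
`|μ(σ, τ)| ≤ f (ν(σ, τ))` for all permutations `σ, τ`. -/
theorem result :
    (∀ m : ℕ, 1 ≤ m → ∃ σ τ : List ℕ, IsPermutation σ ∧ IsPermutation τ ∧
      occ σ τ = 1 ∧ mu σ τ = 2 ^ m) ∧
    ¬ ∃ f : ℕ → ℕ, ∀ σ τ : List ℕ, IsPermutation σ → IsPermutation τ →
      |mu σ τ| ≤ (f (occ σ τ) : ℤ) := by
  have key : ∀ m : ℕ, 1 ≤ m → ∃ σ τ : List ℕ, IsPermutation σ ∧ IsPermutation τ ∧
      occ σ τ = 1 ∧ mu σ τ = 2 ^ m := by
    intro m hm
    obtain ⟨k, rfl⟩ : ∃ k, m = k + 1 := ⟨m - 1, by omega⟩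
    exact ⟨sig (k + 1), tau (k + 1), main k⟩
  refine ⟨key, ?_⟩
  rintro ⟨f, hf⟩
  obtain ⟨σ, τ, h1, h2, h3, h4⟩ := key (f 1 + 1) (by omega)
  have h := hf σ τ h1 h2
  rw [h3, h4, abs_of_nonneg (by positivity)] at h
  have h5 : f 1 + 1 < 2 ^ (f 1 + 1) := Nat.lt_two_pow_self
  have h6 : ((f 1 + 1 : ℕ) : ℤ) < ((2 ^ (f 1 + 1) : ℕ) : ℤ) := by exact_mod_cast h5
  push_cast at h6
  linarith

end Pool.Agent.Results.MP_d308b2_co.NoBound
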